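import Pool.Agent.Helper63.WO.Fin

open Pool.Agent.Helper57.PC

namespace Pool.Agent.Results.MP_8958e8_nt.EveryWindow

/-- The ordered pairs `(ρ, σ)` of simple zeros of zeta on the critical line with ordinates in `[0,T]` for which
`(Im ρ - Im σ) log T/(2π)` lies in `[α, β]`. -/
def simplePairs (T α β : ℝ) : Set (ℂ × ℂ) :=
  {p | (p.1 ∈ zerosUpTo T ∧ p.1.re = 1 / 2 ∧ mult p.1 = 1) ∧ (p.2 ∈ zerosUpTo T ∧ p.2.re = 1 / 2 ∧ mult p.2 = 1) ∧
    (p.1.im - p.2.im) * Real.log T / (2 * Real.pi) ∈ Set.Icc α β}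

open Pool.Agent.Helper57.Zeta Pool.Agent.Helper63.WO
open Pool.Agent.Helper6.HM (lev Sc mem_Sc)

lemma lev_sub (T : ℝ) (ρ σ : ℂ) : lev T ρ - lev T σ = (ρ.im - σ.im) * Real.log T / (2 * Real.pi) := by
  unfold lev
  rw [div_sub_div_same, ← sub_mul]

lemma mem_Sc' {T : ℝ} {ρ : ℂ} : ρ ∈ Sc T ↔ ρ ∈ zerosUpTo T ∧ ρ.re = 1 / 2 ∧ mult ρ = 1 := by
  rw [mem_Sc]
  exact and_congr (Set.Finite.mem_toFinset _) Iff.rfl

lemma simplePairs_finite (T α β : ℝ) : (simplePairs T α β).Finite :=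
  ((Sc T ×ˢ Sc T).finite_toSet).subset fun p hp => by
    rw [Finset.mem_coe, Finset.mem_product]
    exact ⟨mem_Sc'.2 hp.1, mem_Sc'.2 hp.2.1⟩

lemma card_le (T α β : ℝ) : ((PW T α β).card : ℝ) ≤ ((simplePairs T α β).ncard : ℝ) := by
  rw [← Set.ncard_coe_finset]
  have h : ((PW T α β : Finset (ℂ × ℂ)) : Set (ℂ × ℂ)) ⊆ simplePairs T α β := by
    intro p hp
    rw [Finset.mem_coe] at hp
    obtain ⟨h3, h4, h5⟩ := mem_PW.1 hp
    rw [lev_sub] at h4 h5
    exact ⟨mem_Sc'.1 h3.1, mem_Sc'.1 h3.2, h4, h5.le⟩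
  exact_mod_cast Set.ncard_le_ncard h (simplePairs_finite T α β)

lemma PW_mono' {T α β α' β' : ℝ} (h : α ≤ α') (h' : β' ≤ β) : ((PW T α' β').card : ℝ) ≤ ((PW T α β).card : ℝ) := by
  have : PW T α' β' ⊆ PW T α β := by
    intro q hq
    obtain ⟨h3, h4, h5⟩ := mem_PW.1 hq
    exact mem_PW.2 ⟨h3, by linarith, by linarith⟩
  exact_mod_cast Finset.card_le_card this

open Classical in
lemma ncard_le (T α β : ℝ) : ((simplePairs T α β).ncard : ℝ) ≤ pairCount T α β := by
  rw [pairCount_eq, Set.ncard_eq_toFinset_card _ (simplePairs_finite T α β), Finset.card_eq_sum_ones]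
  push_cast
  rw [← Finset.sum_filter]
  have h1 : (simplePairs_finite T α β).toFinset ⊆ (Zf T ×ˢ Zf T).filter (fun p => nd T p ∈ Set.Icc α β) := by
    intro p hp
    rw [Set.Finite.mem_toFinset] at hp
    rw [Finset.mem_filter, Finset.mem_product]
    exact ⟨⟨(mem_Sc.1 (mem_Sc'.2 hp.1)).1, (mem_Sc.1 (mem_Sc'.2 hp.2.1)).1⟩, hp.2.2⟩
  calc (∑ _p ∈ (simplePairs_finite T α β).toFinset, (1:ℝ)) =
        ∑ p ∈ (simplePairs_finite T α β).toFinset, (mult p.1 : ℝ) * (mult p.2 : ℝ) := by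
        refine Finset.sum_congr rfl fun p hp => ?_
        rw [Set.Finite.mem_toFinset] at hp
        rw [hp.1.2.2, hp.2.1.2.2]
        norm_num
    _ ≤ _ := Finset.sum_le_sum_of_subset_of_nonneg h1 fun p _ _ => by positivity

end Pool.Agent.Results.MP_8958e8_nt.EveryWindow

open Pool.Agent.Results.MP_8958e8_nt.EveryWindow in
/-- Unconditional lower bounds of the right order for the pairs of zeros of zeta with scaled difference in a window `[α, β]`
away from `0`, with simple zeros on the critical line. There are `c > 0` and `T₀` such that for all `T ≥ T₀` and all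
`0 < α < β ≤ c T log T` the number of ordered pairs of simple zeros on the critical line with ordinates in `[0,T]` and scaled
difference in `[α, β]` is

(1) at least `c (β - α) T log T` if `[α, β]` has length at least `7/5` or contains `[7/12, 7/5]`;

(2) at least `(1/25) max(1, ⌊(β - α)/(3/2)⌋) T log T/(2π)` if `[α, β]` has length at least `3/2` or contains `[1/2, 3/2]`.

The number of these pairs is at most `N(T; α, β)` = `pairCount T α β`. No hypothesis is used. -/
theorem Pool.Agent.Results.MP_8958e8_nt.EveryWindow.result :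
    (∀ T α β : ℝ, ((simplePairs T α β).ncard : ℝ) ≤ pairCount T α β) ∧
    ∃ c T₀ : ℝ, 0 < c ∧ ∀ T : ℝ, T₀ ≤ T → ∀ α β : ℝ, 0 < α → β ≤ c * (T * Real.log T) →
      (α + 7 / 5 ≤ β ∨ α ≤ 7 / 12 ∧ 7 / 5 ≤ β →
        c * (β - α) * (T * Real.log T) ≤ ((simplePairs T α β).ncard : ℝ)) ∧
      (α + 3 / 2 ≤ β ∨ α ≤ 1 / 2 ∧ 3 / 2 ≤ β →
        1 / 25 * max 1 (⌊(β - α) / (3 / 2)⌋ : ℝ) * (T * Real.log T / (2 * Real.pi)) ≤
          ((simplePairs T α β).ncard : ℝ)) := by
  refine ⟨ncard_le, ?_⟩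
  obtain ⟨T₁, hT₁, h₁⟩ := Pool.Agent.Helper63.WO.fin_long
  obtain ⟨T₂, hT₂, h₂⟩ := Pool.Agent.Helper63.WO.fin_short
  obtain ⟨T₃, hT₃, h₃⟩ := Pool.Agent.Helper63.WO.fin_near
  obtain ⟨T₄, hT₄, h₄⟩ := Pool.Agent.Helper63.WO.fin_unit
  refine ⟨1 / 80000, max T₁ (max T₂ (max T₃ T₄)), by norm_num, fun T hT α β hα hβ => ?_⟩
  have g1 : T₁ ≤ T := (le_max_left _ _).trans hT
  have hT' := (le_max_right _ _).trans hT
  have g2 : T₂ ≤ T := (le_max_left _ _).trans hT'
  have hT'' := (le_max_right _ _).trans hT'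
  have g3 : T₃ ≤ T := (le_max_left _ _).trans hT''
  have g4 : T₄ ≤ T := (le_max_right _ _).trans hT''
  have hS := SN_pos (hT₁.trans_le g1)
  have hpi := Real.pi_pos
  have hpi4 := Real.pi_lt_four
  have hSd : T * Real.log T = 2 * Real.pi * SN T := by
    unfold SN
    field_simp
  have hS2 : SN T = T * Real.log T / (2 * Real.pi) := rfl
  have hc : ∀ x : ℝ, 0 ≤ x → 1 / 80000 * (2 * Real.pi * x) ≤ 1 / 10000 * x := by
    intro x hx
    have : Real.pi * x ≤ 4 * x := mul_le_mul_of_nonneg_right hpi4.le hx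
    linarith
  have hβ' : β ≤ 1 / 10000 * SN T := by
    rw [hSd] at hβ
    have := hc (SN T) hS.le
    linarith
  refine ⟨fun h => ?_, fun h => ?_⟩
  · refine le_trans ?_ (card_le T α β)
    rcases h with h | ⟨h, h'⟩
    · refine le_trans ?_ (h₂ T g2 α β hα h hβ')
      have h1 : 0 ≤ (β - α) * SN T := mul_nonneg (by linarith) hS.le
      have h2 := hc _ h1
      rw [hSd]
      linarith
    · by_cases h3 : α + 7 / 5 ≤ β
      · refine le_trans ?_ (h₂ T g2 α β hα h3 hβ')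
        have h1 : 0 ≤ (β - α) * SN T := mul_nonneg (by linarith) hS.le
        have h2 := hc _ h1
        rw [hSd]
        linarith
      · push Not at h3
        refine le_trans ?_ ((h₃ T g3).trans (PW_mono' h h'))
        have h1 : (β - α) * SN T ≤ 7 / 5 * SN T := mul_le_mul_of_nonneg_right (by linarith) hS.le
        have h2 := hc ((β - α) * SN T) (mul_nonneg (by linarith) hS.le)
        rw [hSd]
        linarith
  · refine le_trans ?_ (card_le T α β)
    rw [← hS2]
    by_cases h3 : α + 3 / 2 ≤ β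
    · have h4 : max 1 (⌊(β - α) / (3 / 2)⌋ : ℝ) = (⌊(β - α) / (3 / 2)⌋ : ℝ) := by
        refine max_eq_right ?_
        have : (1 : ℤ) ≤ ⌊(β - α) / (3 / 2)⌋ := by
          rw [Int.le_floor, le_div_iff₀ (by norm_num)]
          push_cast
          linarith
        exact_mod_cast this
      rw [h4]
      exact h₁ T g1 α β hα h3 hβ'
    · have h5 : α ≤ 1 / 2 ∧ 3 / 2 ≤ β := h.resolve_left h3
      push Not at h3
      have h4 : max 1 (⌊(β - α) / (3 / 2)⌋ : ℝ) = 1 := by
        refine max_eq_left ?_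
        have : ⌊(β - α) / (3 / 2)⌋ < 1 := by
          rw [Int.floor_lt, div_lt_iff₀ (by norm_num)]
          push_cast
          linarith
        have : ⌊(β - α) / (3 / 2)⌋ ≤ 1 := this.le
        exact_mod_cast this
      rw [h4, mul_one]
      exact (h₄ T g4).trans (PW_mono' h5.1 h5.2)
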