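import Pool.Agent.Helper56.IT.Res
import Pool.Agent.Helper56.DR.KLL
import Pool.Agent.Helper66.LV.Uni2
import Pool.Agent.Helper52.IT.DirW
import Pool.Agent.Helper96.IT.DgL
import Pool.Agent.Helper51.IT.Uniq
import Pool.Agent.Helper96.DR.APX
import Pool.Agent.Helper96.DR.T0b
import Pool.Agent.Helper11.DR.SER
import Pool.Agent.Helper52.DR.BD
import Pool.Agent.Helper52.DR.GS
import Pool.Agent.Helper52.DR.MOD
import Pool.Agent.Helper52.DR.LOG
import Pool.Agent.Helper5.DR.SMO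
import Pool.Agent.Helper5.DR.CHF3
import Pool.Agent.Helper5.DR.SUB

/-!
# MP_a499ba_nt: the imaginary twists of the Mertens and Liouville sums

For real `s`, `φ` and `x ≥ 1` let `M(x; s, φ) = ∑_{n ≤ x} μ(n) cos(s log (x/n) + φ)` and `L(x; s, φ)` the same sum with `λ(n)`; for
`s = φ = 0` these are `M(x)` and `L(x)`.  Say that `s` exceeds `B` if for every `φ` there is `K` such that for every `X ≥ K` there are
`x, y ∈ [X, K X log X]` with `M(x; s, φ) > B √x` and `L(y; s, φ) > B √y`.  Let `0 < ε < 1/4`.  For all large `H`, every real `U` and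
every `V` with `0 < V ≤ exp((log H)^{1/2-ε})` there is a measurable subset `A` of `[U, U + H]` of measure at least
`(1 - ε) exp(-(log⁺ (V / (log log H)^{1/4-ε}))^{2+ε}) H` such that for all `t ∈ A` all real `s` with `|s - t| ≤ V` exceed
`V / (1 + |s - t|)`.  (For `V = (log log H)^{1/4-ε}` this is almost all of the interval; for the largest `V` it is `H^{1-o(1)}`.)
-/

set_option autoImplicit false

namespace Pool.Agent.Results.MP_a499ba_nt.ImaginaryTwists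

open MeasureTheory Pool.Agent.IT Pool.Agent.DR

/-- the Liouville function `(-1)^{Ω(n)}` -/
def liouville (n : ℕ) : ℤ := (-1) ^ ArithmeticFunction.cardFactors n

/-- `∑_{n ≤ x} a(n) cos(s log(x/n) + φ)` -/
noncomputable def twist (a : ℕ → ℤ) (s φ x : ℝ) : ℝ :=
  ∑ n ∈ Finset.Icc 1 ⌊x⌋₊, (a n : ℝ) * Real.cos (s * Real.log (x / n) + φ)

/-- for every `φ` there is `K` such that for every `X ≥ K` both twisted sums exceed `B √x` at some `x ∈ [X, K X log X]` -/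
def Exceed (B s : ℝ) : Prop :=
  ∀ φ : ℝ, ∃ K : ℝ, ∀ X : ℝ, K ≤ X →
    (∃ x : ℝ, X ≤ x ∧ x ≤ K * X * Real.log X ∧ B * Real.sqrt x < twist (fun n => ArithmeticFunction.moebius n) s φ x) ∧
    ∃ y : ℝ, X ≤ y ∧ y ≤ K * X * Real.log X ∧ B * Real.sqrt y < twist liouville s φ y

theorem tR_M : StmtTR muc :=
  Pool.Agent.Helper96.DR.tR (Pool.Agent.Helper96.DR.t0 logC_M bD (Pool.Agent.Helper96.DR.aPX (Pool.Agent.Helper11.DR.sER logC_M)) (sUB muc alM)
    (cHF muc alM) sMO) gS_M mod_M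
theorem tR_L : StmtTR lac :=
  Pool.Agent.Helper96.DR.tR (Pool.Agent.Helper96.DR.t0 logC_L bD (Pool.Agent.Helper96.DR.aPX (Pool.Agent.Helper11.DR.sER logC_L)) (sUB lac alL)
    (cHF lac alL) sMO) gS_L mod_L

theorem dg_L : ∃ C : ℝ, ∀ t : ℝ, 10 ≤ |t| → DgW lac C t :=
  Pool.Agent.Helper96.ITd.dgW_la_all fun hRH => Pool.Agent.Helper95.IT.rem_la_of
    (fun _ _ _ hm hκ hκ2 h1 h2 h3 => Pool.Agent.Helper51.IT.uniq_kr hRH hm hκ hκ2 h1 h2 h3) hRH

theorem exceed_of {B s : ℝ} (h1 : ExW muc B s) (h2 : ExW lac B s) : Exceed B s := by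
  intro φ
  obtain ⟨K1, k1⟩ := h1 φ
  obtain ⟨K2, k2⟩ := h2 φ
  refine ⟨max (max K1 K2) 1, fun X hX => ?_⟩
  have hX1 : K1 ≤ X := ((le_max_left _ _).trans (le_max_left _ _)).trans hX
  have hX2 : K2 ≤ X := ((le_max_right _ _).trans (le_max_left _ _)).trans hX
  have hX3 : 1 ≤ X := (le_max_right _ _).trans hX
  have hX4 : 0 ≤ X * Real.log X := mul_nonneg (by linarith) (Real.log_nonneg hX3)
  obtain ⟨x, a1, a2, a3⟩ := k1 X hX1
  obtain ⟨y, b1, b2, b3⟩ := k2 X hX2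
  rw [cosSum_eq muc_eq] at a3
  rw [cosSum_eq lac_eq] at b3
  refine ⟨⟨x, a1, a2.trans ?_, a3⟩, y, b1, b2.trans ?_, b3⟩
  · rw [mul_assoc, mul_assoc]
    exact mul_le_mul_of_nonneg_right ((le_max_left _ _).trans (le_max_left _ _)) hX4
  · rw [mul_assoc, mul_assoc]
    exact mul_le_mul_of_nonneg_right ((le_max_right _ _).trans (le_max_left _ _)) hX4

theorem result (ε : ℝ) (hε : 0 < ε) (hε4 : ε < 1 / 4) : ∃ H0 : ℝ, ∀ H : ℝ, H0 ≤ H → ∀ U V : ℝ, 0 < V →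
    V ≤ Real.exp (Real.log H ^ (1 / 2 - ε)) → ∃ A : Set ℝ, MeasurableSet A ∧ A ⊆ Set.Icc U (U + H) ∧
      ENNReal.ofReal ((1 - ε) * Real.exp (-(Real.posLog (V / Real.log (Real.log H) ^ (1 / 4 - ε))) ^ (2 + ε)) * H) ≤ volume A ∧
      ∀ t ∈ A, ∀ s : ℝ, |s - t| ≤ V → Exceed (V / (1 + |s - t|)) s := by
  obtain ⟨C2, hC2⟩ := dg_L
  obtain ⟨H0, h0⟩ := Pool.Agent.Helper66.LV.uni (fun _ ht => Pool.Agent.Helper52.Tw.dgW_mu ht) hC2 (kLL tR_M) (kLL tR_L) ε hε hε4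
  refine ⟨H0, fun H hH U V hV hVH => ?_⟩
  obtain ⟨A, a1, a2, a3, a4⟩ := h0 H hH U V hV hVH
  exact ⟨A, a1, a2, a3, fun t ht s hs => exceed_of (a4 t ht s hs).1 (a4 t ht s hs).2⟩

end Pool.Agent.Results.MP_a499ba_nt.ImaginaryTwists
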