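import Pool.Agent.Helper66.RT.Fin9
import Pool.Agent.Helper66.RT.Num9

open Pool.Agent.Helper57.PC

namespace Pool.Agent.Results.MP_8958e8_nt.IsolatedSimpleZeros

/-- The Montgomery-Taylor constant `C = 1/2 + cot(1/√2)/√2 = 1.3274…`. -/
noncomputable def mtC : ℝ := 1 / 2 + Real.cot (1 / Real.sqrt 2) / Real.sqrt 2

/-- The function `Γ(β) = ∫_{-1/2}^{1/2} cos(√2 x) cos(2π β x) dx / ∫_{-1/2}^{1/2} cos(√2 x) dx`. -/
noncomputable def mtG (β : ℝ) : ℝ :=
  (∫ x in (-(1 / 2) : ℝ)..(1 / 2), Real.cos (Real.sqrt 2 * x) * Real.cos (2 * Real.pi * β * x)) /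
    ∫ x in (-(1 / 2) : ℝ)..(1 / 2), Real.cos (Real.sqrt 2 * x)

/-- The zeros `ρ` of zeta with `0 < Re ρ < 1`, `0 ≤ Im ρ ≤ T` which are simple, lie on the critical line and have no other zero
of the critical line near: every other zero `σ` of zeta with `Re σ = 1/2` (of any height and multiplicity) satisfies
`|Im σ - Im ρ| > β · 2π/log T`. -/
def isolatedOnLine (T β : ℝ) : Set ℂ :=
  {ρ | ρ ∈ zerosUpTo T ∧ ρ.re = 1 / 2 ∧ mult ρ = 1 ∧
    ∀ σ : ℂ, IsNontrivialZero σ → σ ≠ ρ → σ.re = 1 / 2 → β < |σ.im - ρ.im| * Real.log T / (2 * Real.pi)}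

/-- The zeros `ρ` of zeta with `0 < Re ρ < 1`, `0 ≤ Im ρ ≤ T` which are simple, lie on the critical line and are
isolated from all zeros: every other zero `σ` of zeta with `0 < Re σ < 1` (of any height and multiplicity) satisfies
`|Im σ - Im ρ| > β · 2π/log T`. -/
def isolatedFromAll (T β : ℝ) : Set ℂ :=
  {ρ | ρ ∈ zerosUpTo T ∧ ρ.re = 1 / 2 ∧ mult ρ = 1 ∧
    ∀ σ : ℂ, IsNontrivialZero σ → σ ≠ ρ → β < |σ.im - ρ.im| * Real.log T / (2 * Real.pi)}

open Pool.Agent.Helper66.RT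

lemma mtC_eq : mtC = CMT := by
  unfold mtC CMT
  have h0 : Real.sqrt 2 * Real.sqrt 2 = 2 := Real.mul_self_sqrt (by norm_num)
  have h1 : (1 : ℝ) / Real.sqrt 2 = aa := by
    have h2 : Real.sqrt 2 ≠ 0 := by positivity
    unfold aa
    field_simp
    linarith
  rw [div_eq_mul_one_div (Real.cot _), h1, Real.cot_eq_cos_div_sin]
  ring

lemma mtG_eq (β : ℝ) : mtG β = Gam β := by
  have h1 : ∀ x : ℝ, Real.cos (Real.sqrt 2 * x) = ph x := fun x => by
    unfold ph
    rw [aa_two]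
  have h2 : ∫ x in (-(1 / 2) : ℝ)..(1 / 2), Real.cos (Real.sqrt 2 * x) = I0 := by
    have h3 := Gam_zero
    unfold Gam at h3
    rw [div_eq_one_iff_eq I0_pos.ne'] at h3
    rw [← h3]
    refine intervalIntegral.integral_congr fun x _ => ?_
    simp only [h1, mul_zero, Real.cos_zero, mul_one]
  unfold mtG Gam
  rw [h2]
  congr 1
  refine intervalIntegral.integral_congr fun x _ => ?_
  simp only [h1]
  congr 2
  ring

lemma lev_eq {T : ℝ} (hT : 1 < T) (ρ σ : ℂ) : |Pool.Agent.Helper6.HM.lev T ρ - Pool.Agent.Helper6.HM.lev T σ| =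
    |σ.im - ρ.im| * Real.log T / (2 * Real.pi) := by
  have hlog : 0 < Real.log T := Real.log_pos hT
  unfold Pool.Agent.Helper6.HM.lev
  rw [abs_sub_comm, div_sub_div_same, ← sub_mul, abs_div, abs_mul, abs_of_pos hlog,
    abs_of_pos (by positivity : (0:ℝ) < 2 * Real.pi)]

lemma ncard_eq {T β : ℝ} (hT : 1 < T) : Pool.Agent.Helper49.RT.IsoSet T β 0 = isolatedOnLine T β := by
  have hlog : 0 < Real.log T := Real.log_pos hT
  ext ρ
  unfold Pool.Agent.Helper49.RT.IsoSet isolatedOnLine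
  simp only [Set.mem_ofPred_eq]
  refine and_congr ?_ (and_congr Iff.rfl (and_congr Iff.rfl (forall_congr' fun σ => imp_congr Iff.rfl
    (imp_congr Iff.rfl (imp_congr ?_ ?_)))))
  · exact Set.Finite.mem_toFinset _
  · constructor
    · intro h
      have h1 : |σ.re - 1 / 2| ≤ 0 := by
        by_contra h2
        push Not at h2
        have : 0 < |σ.re - 1 / 2| * Real.log T := mul_pos h2 hlog
        linarith
      have h2 := abs_nonpos_iff.1 h1
      linarith
    · intro h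
      rw [h, sub_self, abs_zero, zero_mul]
  · rw [lev_eq hT]

lemma ncard_eq_all {T β : ℝ} (hT : 1 < T) : AllSet T β = isolatedFromAll T β := by
  ext ρ
  unfold AllSet isolatedFromAll
  simp only [Set.mem_ofPred_eq]
  refine and_congr ?_ (and_congr Iff.rfl (and_congr Iff.rfl (forall_congr' fun σ => imp_congr Iff.rfl
    (imp_congr Iff.rfl ?_))))
  · exact Set.Finite.mem_toFinset _
  · rw [lev_eq hT]

end Pool.Agent.Results.MP_8958e8_nt.IsolatedSimpleZeros

open Pool.Agent.Results.MP_8958e8_nt.IsolatedSimpleZeros in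
/-- Unconditional isolation of simple zeros on the critical line, with `R(β) = (C - 1)/Γ(β)²` and `S = T log T/(2π)`. There are
`δ > 0` and `T₀` such that for all `T ≥ T₀` and all `0 ≤ β ≤ 1/2`:

(i) at least `(1 - R(β) + δ) S` zeros of zeta with ordinate in `[0,T]` are simple, lie on the critical line, and have no other
zero of the critical line within `β` mean spacings `2π/log T`;

(ii) at least `(1 - R(β) - τ + δ) S` zeros are simple, lie on the critical line, and no other zero of zeta at all, on or off the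
line, has its ordinate within `β` mean spacings; here `τ = 1/125`, and `τ` may be replaced by `1/270`, `1/600`, `1/1400` if
`β ≤ 1/3`, `1/4`, `1/6`.

The factor in (ii) is at least `2/3`, `3/5`, `53/100`, `6/25` at `β = 1/20`, `1/4`, `1/3`, `1/2`. No hypothesis is used. -/
theorem Pool.Agent.Results.MP_8958e8_nt.IsolatedSimpleZeros.result :
    (∃ δ T₀ : ℝ, 0 < δ ∧ ∀ T : ℝ, T₀ ≤ T → ∀ β : ℝ, 0 ≤ β → β ≤ 1 / 2 →
      (1 - (mtC - 1) / mtG β ^ 2 + δ) * (T * Real.log T / (2 * Real.pi)) ≤ ((isolatedOnLine T β).ncard : ℝ) ∧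
      (1 - (mtC - 1) / mtG β ^ 2 - 1 / 125 + δ) * (T * Real.log T / (2 * Real.pi)) ≤ ((isolatedFromAll T β).ncard : ℝ) ∧
      (β ≤ 1 / 3 → (1 - (mtC - 1) / mtG β ^ 2 - 1 / 270 + δ) * (T * Real.log T / (2 * Real.pi)) ≤
        ((isolatedFromAll T β).ncard : ℝ)) ∧
      (β ≤ 1 / 4 → (1 - (mtC - 1) / mtG β ^ 2 - 1 / 600 + δ) * (T * Real.log T / (2 * Real.pi)) ≤
        ((isolatedFromAll T β).ncard : ℝ)) ∧
      (β ≤ 1 / 6 → (1 - (mtC - 1) / mtG β ^ 2 - 1 / 1400 + δ) * (T * Real.log T / (2 * Real.pi)) ≤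
        ((isolatedFromAll T β).ncard : ℝ))) ∧
    2 / 3 ≤ 1 - (mtC - 1) / mtG (1 / 20) ^ 2 - 1 / 1400 ∧
    3 / 5 ≤ 1 - (mtC - 1) / mtG (1 / 4) ^ 2 - 1 / 600 ∧
    53 / 100 ≤ 1 - (mtC - 1) / mtG (1 / 3) ^ 2 - 1 / 270 ∧
    6 / 25 ≤ 1 - (mtC - 1) / mtG (1 / 2) ^ 2 - 1 / 125 := by
  refine ⟨?_, ?_, ?_, ?_, ?_⟩
  · obtain ⟨δ₁, T₁, hδ₁, h₁⟩ := Pool.Agent.Helper49.RT.final6
    obtain ⟨δ₂, T₂, hδ₂, h₂⟩ := Pool.Agent.Helper66.RT.final9
    refine ⟨min δ₁ δ₂, max T₁ (max T₂ 2), lt_min hδ₁ hδ₂, fun T hT β hβ hb => ?_⟩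
    have hT1 : T₁ ≤ T := (le_max_left _ _).trans hT
    have hT2 : T₂ ≤ T := ((le_max_left _ _).trans (le_max_right _ _)).trans hT
    have hT3 : (2 : ℝ) ≤ T := ((le_max_right _ _).trans (le_max_right _ _)).trans hT
    have hS : 0 ≤ T * Real.log T / (2 * Real.pi) := by
      have : 0 ≤ Real.log T := Real.log_nonneg (by linarith)
      positivity
    have k1 := (h₁ T hT1).1 β hβ hb
    obtain ⟨k6, k4, k3, k2⟩ := h₂ T hT2 β hβ
    have low : ∀ {c δ' X : ℝ}, min δ₁ δ₂ ≤ δ' → (c + δ') * (T * Real.log T / (2 * Real.pi)) ≤ X →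
        (c + min δ₁ δ₂) * (T * Real.log T / (2 * Real.pi)) ≤ X := by
      intro c δ' X g1 g2
      refine le_trans ?_ g2
      exact mul_le_mul_of_nonneg_right (by linarith) hS
    rw [mtC_eq, mtG_eq, ← ncard_eq (by linarith), ← ncard_eq_all (by linarith)]
    exact ⟨low (min_le_left _ _) k1, low (min_le_right _ _) (k2 hb), fun h => low (min_le_right _ _) (k3 h),
      fun h => low (min_le_right _ _) (k4 h), fun h => low (min_le_right _ _) (k6 h)⟩
  · rw [mtC_eq, mtG_eq]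
    exact Pool.Agent.Helper66.RT.val9_20
  · rw [mtC_eq, mtG_eq]
    exact Pool.Agent.Helper66.RT.val9_4
  · rw [mtC_eq, mtG_eq]
    exact Pool.Agent.Helper66.RT.val9_3
  · rw [mtC_eq, mtG_eq]
    exact Pool.Agent.Helper66.RT.val9_2
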