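import Pool.Agent.Helper66.GV.Dich

/-!
# One unipotent decides whether an isomorphism of group von Neumann algebras is standard

Let `n ≥ 3`, let `Γ ≤ PGL(n, ℚ)` be commensurable with the image of `SL(n, ℤ)` (for example
`Γ = PSL(n, ℤ)`), let `Λ` be an arbitrary group and `θ : L(Γ) → L(Λ)` a trace preserving
`*`-isomorphism.  The height of an element `x` of `L(Λ)` is the supremum of the absolute values of
its Fourier coefficients.  Then `θ` is standard (i.e. induced by an isomorphism of groups, a
character and the conjugation with a unitary of `L(Λ)`) if and only if for a single unipotent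
element `e ≠ 1` of `Γ` the Cesàro means of the heights of the unitaries `θ(u_e)^m = θ(u_{e^m})`,
`m = 0, 1, 2, …`, do not tend to zero.

The proof uses the theorem of Ioana, Popa and Vaes on subgroups with height bounded from below, a
zero-one law for root subgroups and the theorem of Carter and Keller on the bounded generation of
`SL(n, ℤ)` (all of them are proved in the files imported here).
-/

open scoped MatrixGroups
open Filter Topology Matrix
open Pool.Agent.Helper66.GV

namespace Pool.Agent.Results.MP_0f6f3f_an.OneUnipotent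

theorem result (n : Type*) [Fintype n] [DecidableEq n] (hn : 3 ≤ Fintype.card n)
    (Γ : Subgroup (PGL(n, ℚ))) (hΓ : Γ.Commensurable (intHom n).range)
    (Λ : Type*) [Group Λ] (θ : LG Γ ≃⋆ₐ[ℂ] LG Λ) (hθ : TracePreserving θ) :
    (∃ w : LG Λ, star w * w = 1 ∧ w * star w = 1 ∧ ∃ (δ : Γ ≃* Λ) (χ : Γ →* Circle),
      ∀ g : Γ, θ (u g) = (χ g : ℂ) • (star w * u (δ g) * w)) ↔
    ∃ e : Γ, e ≠ 1 ∧ IsUnip (e : PGL(n, ℚ)) ∧
      ¬ Tendsto (fun N : ℕ => (∑ m ∈ Finset.range N, height (θ (u (e ^ m)))) / (N : ℝ))
        atTop (𝓝 0) :=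
  dichotomy hn hΓ hθ

end Pool.Agent.Results.MP_0f6f3f_an.OneUnipotent
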