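import Mathlib
import Pool.Agent.Helper66.PI.Params

/-!
# Powers of `π` in short windows

In every block of `k` consecutive integers `m ≥ n ≥ k (log k) ^ 2` there is one for which
`ξ π ^ m`, even after subtraction of a solution modulo `1` of a linear recurrence with integer
coefficients and after multiplication by a not too large integer `q`, is not within
`exp (-C n / log k)` of an integer.
-/

namespace Pool.Agent.Helper66.Keep.PowersOfPi

open Pool.Agent.Helper66.PI Finset Polynomial

/-- **Main result.** There are absolute constants `C`, `k₀` such that the following holds for all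
integers `k ≥ k₀` and `n ≥ k (log k) ^ 2`. Let `g` be an integer polynomial with
`deg g + ⌊√k⌋ < k` whose coefficients have absolute values with sum at most `exp (n / log k)`, let
`ξ` be real with `exp (-n) ≤ |ξ g(π)| ≤ exp n`, and let `u` be a real sequence such that
`∑ i, g_i u (m + i)` is an integer for `n ≤ m`, `m + deg g < n + k`. Then for at least one `m` with
`n ≤ m < n + k` the inequality `|q (ξ π ^ m - u m) - b| > exp (-C n / log k)` holds for all
integers `1 ≤ q ≤ exp (n / (k log k))` and all integers `b`. -/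
theorem result : ∃ C k₀ : ℝ, ∀ n k : ℕ, k₀ ≤ k → (k : ℝ) * Real.log k ^ 2 ≤ n →
    ∀ g : ℤ[X], g.natDegree + Nat.sqrt k < k →
    ∑ i ∈ range (g.natDegree + 1), |(g.coeff i : ℝ)| ≤ Real.exp (n / Real.log k) →
    ∀ ξ : ℝ, Real.exp (-n) ≤ |ξ * aeval Real.pi g| → |ξ * aeval Real.pi g| ≤ Real.exp n →
    ∀ u : ℕ → ℝ, (∀ m, n ≤ m → m + g.natDegree < n + k →
      ∃ z : ℤ, ∑ i ∈ range (g.natDegree + 1), (g.coeff i : ℝ) * u (m + i) = z) →
    ∃ m, n ≤ m ∧ m < n + k ∧ ∀ q : ℕ, 1 ≤ q → (q : ℝ) ≤ Real.exp (n / (k * Real.log k)) →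
      ∀ b : ℤ, Real.exp (-(C * (n / Real.log k))) < |q * (ξ * Real.pi ^ m - u m) - b| := by
  refine ⟨303, Real.exp 160, ?_⟩
  intro n k hk hkn g hg hgl ξ hξ1 hξ2 u hu
  by_contra hcon
  push Not at hcon
  set D := g.natDegree with hD
  set L := Real.log k with hL
  have hk0 : (0 : ℝ) < k := lt_of_lt_of_le (Real.exp_pos _) hk
  have hL160 : 160 ≤ L := by
    rw [hL, Real.le_log_iff_exp_le hk0]
    exact hk
  have hLpos : 0 < L := by linarith
  have hk1 : (1 : ℝ) ≤ k := by exact_mod_cast (by exact_mod_cast hk0 : 0 < k)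
  set y : ℝ := (n : ℝ) / L with hy
  have hyL : y * L = n := by rw [hy]; field_simp
  have hky : (k : ℝ) * L ≤ y := by
    rw [hy, le_div_iff₀ hLpos]
    calc (k : ℝ) * L * L = k * L ^ 2 := by ring
      _ ≤ n := hkn
  have hkL : L ≤ k * L := le_mul_of_one_le_left hLpos.le hk1
  have hy1 : 1 ≤ y := by linarith
  have hyn : y ≤ n := by
    rw [← hyL]
    exact le_mul_of_one_le_right (by linarith) (by linarith)
  have hn1 : 1 ≤ n := by
    have : (1 : ℝ) ≤ n := hy1.trans hyn
    exact_mod_cast this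
  -- the choice of the approximations
  have hcon' : ∀ i : ℕ, ∃ q : ℕ, ∃ b : ℤ, i < k → (1 ≤ q ∧ (q : ℝ) ≤ Real.exp (n / (k * L)) ∧
      |q * (ξ * Real.pi ^ (n + i) - u (n + i)) - b| ≤ Real.exp (-(303 * y))) := by
    intro i
    by_cases hi : i < k
    · obtain ⟨q, hq1, hq2, b, hb⟩ := hcon (n + i) (by omega) (by omega)
      exact ⟨q, b, fun _ => ⟨hq1, hq2, hb⟩⟩
    · exact ⟨0, 0, fun h => absurd h hi⟩
  choose q c hqc using hcon'
  set Q : ℕ := ∏ i ∈ range k, q i with hQ
  have hQpos : 1 ≤ Q := by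
    apply Nat.succ_le_of_lt
    apply prod_pos
    intro i hi
    exact (hqc i (mem_range.mp hi)).1
  have hQle : (Q : ℝ) ≤ Real.exp y := by
    rw [hQ]
    push_cast
    calc ∏ i ∈ range k, (q i : ℝ) ≤ ∏ i ∈ range k, Real.exp (n / (k * L)) := by
          apply prod_le_prod
          · intro i _; positivity
          · intro i hi; exact (hqc i (mem_range.mp hi)).2.1
      _ = Real.exp y := by
          rw [prod_const, card_range, ← Real.exp_nat_mul]
          congr 1
          rw [hy]
          field_simp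
  -- the integers with common denominator
  set Q' : ℕ → ℕ := fun i => ∏ j ∈ (range k).erase i, q j with hQ'
  have hQQ : ∀ i < k, q i * Q' i = Q := by
    intro i hi
    rw [hQ', hQ]
    exact mul_prod_erase (range k) q (mem_range.mpr hi)
  have hQ'le : ∀ i < k, (Q' i : ℝ) ≤ Q := by
    intro i hi
    have h1 := (hqc i hi).1
    have h2 : Q' i ≤ Q := by
      rw [← hQQ i hi]
      exact Nat.le_mul_of_pos_left _ h1
    exact_mod_cast h2
  set e : ℕ → ℤ := fun i => (Q' i : ℤ) * c i with he
  have he1 : ∀ i < k, |(Q : ℝ) * (ξ * Real.pi ^ (n + i) - u (n + i)) - e i| ≤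
      Real.exp y * Real.exp (-(303 * y)) := by
    intro i hi
    have h1 : (Q : ℝ) * (ξ * Real.pi ^ (n + i) - u (n + i)) - e i =
        Q' i * (q i * (ξ * Real.pi ^ (n + i) - u (n + i)) - c i) := by
      rw [← hQQ i hi]
      simp only [he]
      push_cast
      ring
    rw [h1, abs_mul, abs_of_nonneg (Nat.cast_nonneg _)]
    exact mul_le_mul ((hQ'le i hi).trans hQle) (hqc i hi).2.2 (abs_nonneg _) (Real.exp_pos _).le
  -- the integers coming from the recurrence
  have hu' : ∀ j : ℕ, ∃ z : ℤ, j + D < k →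
      ∑ i ∈ range (D + 1), (g.coeff i : ℝ) * u (n + (j + i)) = z := by
    intro j
    by_cases hj : j + D < k
    · obtain ⟨z, hz⟩ := hu (n + j) (by omega) (by omega)
      refine ⟨z, fun _ => ?_⟩
      rw [← hz]
      apply sum_congr rfl
      intro i _
      rw [add_assoc]
    · exact ⟨0, fun h => absurd h hj⟩
  choose z hz using hu'
  obtain ⟨K, hK⟩ : ∃ K, k = K + 1 + D := ⟨k - D - 1, by omega⟩
  set X : ℝ := Q * (ξ * aeval Real.pi g) * Real.pi ^ n with hX
  set b : ℕ → ℤ := fun j => ∑ i ∈ range (D + 1), g.coeff i * e (j + i) + Q * z j with hb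
  have hgpi : aeval Real.pi g = ∑ i ∈ range (D + 1), (g.coeff i : ℝ) * Real.pi ^ i := by
    rw [aeval_eq_sum_range]
    apply sum_congr rfl
    intro i _
    rw [zsmul_eq_mul]
  have hbX : ∀ j ≤ K, |(b j : ℝ) - X * Real.pi ^ j| ≤ Real.exp (-(301 * y)) := by
    intro j hj
    have h1 : (b j : ℝ) - X * Real.pi ^ j = -∑ i ∈ range (D + 1), (g.coeff i : ℝ) *
        ((Q : ℝ) * (ξ * Real.pi ^ (n + (j + i)) - u (n + (j + i))) - e (j + i)) := by
      have h2 := hz j (by omega)
      have h3 : ∑ i ∈ range (D + 1), (g.coeff i : ℝ) *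
          ((Q : ℝ) * (ξ * Real.pi ^ (n + (j + i)) - u (n + (j + i))) - e (j + i)) =
          Q * ξ * Real.pi ^ (n + j) * (∑ i ∈ range (D + 1), (g.coeff i : ℝ) * Real.pi ^ i) -
          Q * (∑ i ∈ range (D + 1), (g.coeff i : ℝ) * u (n + (j + i))) -
          ∑ i ∈ range (D + 1), (g.coeff i : ℝ) * e (j + i) := by
        rw [mul_sum, mul_sum, ← sum_sub_distrib, ← sum_sub_distrib]
        apply sum_congr rfl
        intro i _
        rw [show n + (j + i) = n + j + i by ring, pow_add _ (n + j) i]
        ring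
      rw [h3, h2, hX, hgpi, hb]
      push_cast
      rw [pow_add]
      ring
    rw [h1, abs_neg]
    refine (abs_sum_le_sum_abs _ _).trans ?_
    calc ∑ i ∈ range (D + 1), |(g.coeff i : ℝ) *
        ((Q : ℝ) * (ξ * Real.pi ^ (n + (j + i)) - u (n + (j + i))) - e (j + i))|
        ≤ ∑ i ∈ range (D + 1), |(g.coeff i : ℝ)| * (Real.exp y * Real.exp (-(303 * y))) := by
          apply sum_le_sum
          intro i hi
          rw [abs_mul]
          apply mul_le_mul_of_nonneg_left _ (abs_nonneg _)
          exact he1 (j + i) (by have := mem_range.mp hi; omega)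
      _ = (∑ i ∈ range (D + 1), |(g.coeff i : ℝ)|) * (Real.exp y * Real.exp (-(303 * y))) := by
          rw [sum_mul]
      _ ≤ Real.exp y * (Real.exp y * Real.exp (-(303 * y))) :=
          mul_le_mul_of_nonneg_right hgl (by positivity)
      _ = Real.exp (-(301 * y)) := by
          rw [← Real.exp_add, ← Real.exp_add]
          congr 1
          ring
  have hpipos := Real.pi_pos
  have hXabs : |X| = Q * |ξ * aeval Real.pi g| * Real.pi ^ n := by
    rw [hX, abs_mul, abs_mul, abs_of_nonneg (Nat.cast_nonneg (α := ℝ) Q),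
      abs_of_nonneg (pow_nonneg hpipos.le n)]
  have hX4 : |X| ≤ Real.exp (4 * n) := by
    rw [hXabs]
    have h1 : Real.pi ^ n ≤ Real.exp (2 * n) := by
      calc Real.pi ^ n ≤ (Real.exp 2) ^ n := pow_le_pow_left₀ hpipos.le pi_le_exp_two _
        _ = Real.exp (2 * n) := by rw [← Real.exp_nat_mul]; congr 1; ring
    calc Q * |ξ * aeval Real.pi g| * Real.pi ^ n ≤ Real.exp y * Real.exp n * Real.exp (2 * n) := by
          apply mul_le_mul _ h1 (by positivity) (by positivity)
          exact mul_le_mul hQle hξ2 (abs_nonneg _) (by positivity)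
      _ = Real.exp (y + n + 2 * n) := by rw [← Real.exp_add, ← Real.exp_add]
      _ ≤ Real.exp (4 * n) := by
          apply Real.exp_le_exp.mpr
          linarith
  have hX1 : 1 ≤ |X| := by
    rw [hXabs]
    have h1 : Real.exp n ≤ Real.pi ^ n := by
      calc Real.exp n = (Real.exp 1) ^ n := by rw [← Real.exp_nat_mul]; congr 1; ring
        _ ≤ Real.pi ^ n := by
            apply pow_le_pow_left₀ (Real.exp_pos _).le
            have := Real.exp_one_lt_d9
            have := Real.pi_gt_three
            linarith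
    have h2 : (1 : ℝ) ≤ Q := by exact_mod_cast hQpos
    calc (1 : ℝ) = 1 * Real.exp (-n) * Real.exp n := by
          rw [one_mul, ← Real.exp_add]
          simp
      _ ≤ Q * |ξ * aeval Real.pi g| * Real.pi ^ n := by
          apply mul_le_mul _ h1 (by positivity) (by positivity)
          exact mul_le_mul h2 hξ1 (by positivity) (by positivity)
  have hρ1 : Real.exp (-(301 * y)) < 1 := by
    rw [Real.exp_lt_one_iff]
    linarith
  have hb0 : b 0 ≠ 0 := by
    intro h0
    have h1 := hbX 0 (Nat.zero_le _)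
    rw [h0, pow_zero, mul_one, Int.cast_zero, zero_sub, abs_neg] at h1
    linarith
  have hKk : ((K + 1 : ℕ) : ℝ) ≤ k := by
    have : K + 1 ≤ k := by omega
    exact_mod_cast this
  refine param (K := K) (n := n) (L := L) (X := X) (ρ := Real.exp (-(301 * y))) hL160 ?_ ?_ hn1 ?_
    hX4 (Real.exp_pos _).le le_rfl b ⟨0, Nat.zero_le _, hb0⟩ hbX
  · -- `exp (L / 2) = √k ≤ K + 1`
    have h1 : Real.exp (L / 2) = Real.sqrt k := by
      rw [Real.sqrt_eq_rpow, Real.rpow_def_of_pos hk0, ← hL]
      congr 1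
      ring
    rw [h1, Real.sqrt_le_left (by positivity)]
    have h2 : k < (Nat.sqrt k + 1) * (Nat.sqrt k + 1) := Nat.lt_succ_sqrt k
    have h3 : Nat.sqrt k + 1 ≤ K + 1 := by omega
    have h4 : k ≤ (K + 1) ^ 2 := by nlinarith
    exact_mod_cast h4
  · rw [hL, Real.exp_log hk0]
    exact hKk
  · exact (mul_le_mul_of_nonneg_right hKk (by positivity)).trans hkn

end Pool.Agent.Helper66.Keep.PowersOfPi
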