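import Pool.Agent.Helper66.RMT.FinW2
import Pool.Agent.Helper96.RMT.Sq2
import Pool.Agent.Helper95.RMT.WM
import Pool.Agent.Helper11.RMT.MeanAB
import Pool.Agent.Helper96.RMT.DriftZ2

/-!
# MP_a499ba_nt: Gonek's law for `M` and `L` in the random matrix model

Gonek's conjecture is `liminf M(x) / F(x) = -B`, `limsup M(x) / F(x) = B` with `F(x) = √x (log log log x)^{5/4}`, and
the same is asked for `L` with a constant `A`. It is read off from the explicit formulas (RH, simple zeros `1/2 + iγ`)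
`M(x) = 2 Re ∑_{γ > 0} x^{1/2 + iγ} / ((1/2 + iγ) ζ'(1/2 + iγ)) + O(1)`,
`L(x) = √x / ζ(1/2) + 2 Re ∑_{γ > 0} x^{1/2 + iγ} ζ(1 + 2iγ) / ((1/2 + iγ) ζ'(1/2 + iγ)) + O(1)`
by treating the ordinates as independent, and from the random matrix model of Hughes, Keating and O'Connell: near the
height `2πn` the zeta function is modelled by the characteristic polynomial `Z_n(θ) = det(1 - U_n e^{-iθ})` of a random
unitary matrix `U_n` of size about `log n`, the ordinates in `[2πn, 2π(n+1))` by `2πn + θ` with the eigenangles `θ`, and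
`ζ'(1/2 + iγ)` by `Z_n'(θ) / i = ∏ (1 - e^{i(θ_k - θ)})`, the product over the other eigenangles.

Here it is proved that in this model, with independent matrices, the explicit formulas converge and Gonek's law holds
almost surely for `M` and `L`, jointly, with explicit constants.
-/

set_option autoImplicit false

namespace Pool.Agent.Results.MP_a499ba_nt.RandomMatrixModel

open MeasureTheory ProbabilityTheory Filter Finset Topology

/-- Weyl's law of the eigenangles in `[0, 2π)^N` of a Haar distributed unitary matrix of size `N`: the density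
`∏_{j < k} |e^{iθ_j} - e^{iθ_k}|² / (N! (2π)^N)`. -/
noncomputable def eigenangles (N : ℕ) : Measure (Fin N → ℝ) :=
  (volume.restrict (Set.pi Set.univ fun _ => Set.Ico 0 (2 * Real.pi))).withDensity
    fun θ => ENNReal.ofReal ((∏ j, ∏ k ∈ Ioi j,
      ‖Complex.exp (θ j * Complex.I) - Complex.exp (θ k * Complex.I)‖ ^ 2) /
        (N.factorial * (2 * Real.pi) ^ N))

/-- The size `⌊log n⌋` of the matrix for the heights in `[2πn, 2π(n+1))`. -/
noncomputable def size (n : ℕ) : ℕ := ⌊Real.log n⌋₊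

/-- `Z'(θ_j) / i = ∏_{k ≠ j} (1 - e^{i(θ_k - θ_j)})` for `Z(θ) = ∏_k (1 - e^{i(θ_k - θ)})`. -/
noncomputable def derivZ {N : ℕ} (θ : Fin N → ℝ) (j : Fin N) : ℂ :=
  ∏ k ∈ univ.erase j, (1 - Complex.exp ((θ k - θ j : ℝ) * Complex.I))

/-- The ordinate `γ_{n,j} = 2πn + θ_{n,j}`. -/
noncomputable def ordinate (θ : (n : ℕ) → Fin (size n) → ℝ) (n : ℕ) (j : Fin (size n)) : ℝ :=
  2 * Real.pi * n + θ n j

/-- The explicit formula for the sums of the Moebius function, with the first `K` matrices: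
`2 Re ∑_{n < K} ∑_j x^{1/2 + iγ_{n,j}} / ((1/2 + iγ_{n,j}) Z_n'(θ_{n,j}))`. -/
noncomputable def formulaM (θ : (n : ℕ) → Fin (size n) → ℝ) (K : ℕ) (x : ℝ) : ℝ :=
  2 * (∑ n ∈ range K, ∑ j, (x : ℂ) ^ ((1 / 2 : ℂ) + ordinate θ n j * Complex.I) /
    (((1 / 2 : ℂ) + ordinate θ n j * Complex.I) * derivZ (θ n) j)).re

/-- The explicit formula for the sums of the Liouville function, with the first `K` matrices:
`√x / ζ(1/2) + 2 Re ∑_{n < K} ∑_j x^{1/2 + iγ_{n,j}} ζ(1 + 2iγ_{n,j}) / ((1/2 + iγ_{n,j}) Z_n'(θ_{n,j}))`. -/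
noncomputable def formulaL (θ : (n : ℕ) → Fin (size n) → ℝ) (K : ℕ) (x : ℝ) : ℝ :=
  (Real.sqrt x / riemannZeta (1 / 2)).re +
  2 * (∑ n ∈ range K, ∑ j, (x : ℂ) ^ ((1 / 2 : ℂ) + ordinate θ n j * Complex.I) *
    riemannZeta (1 + 2 * ordinate θ n j * Complex.I) /
    (((1 / 2 : ℂ) + ordinate θ n j * Complex.I) * derivZ (θ n) j)).re

/-- Gonek's function `√x (log log log x)^{5/4}`. -/
noncomputable def gonek (x : ℝ) : ℝ := Real.sqrt x * Real.log (Real.log (Real.log x)) ^ ((5 : ℝ) / 4)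

theorem cpow_eq {x : ℝ} (hx : 0 < x) (γ : ℝ) : (x : ℂ) ^ ((1 / 2 : ℂ) + γ * Complex.I) =
    (Real.sqrt x : ℂ) * Complex.exp ((Real.log x * γ : ℝ) * Complex.I) := by
  have hxc : (x : ℂ) ≠ 0 := by exact_mod_cast hx.ne'
  rw [Complex.cpow_add _ _ hxc]
  congr 1
  · rw [Real.sqrt_eq_rpow, Complex.ofReal_cpow hx.le]
    norm_num
  · rw [Complex.cpow_def_of_ne_zero hxc, ← Complex.ofReal_log hx.le]
    congr 1
    push_cast
    ring

theorem formulaM_eq (θ : (n : ℕ) → Fin (size n) → ℝ) (K : ℕ) {x : ℝ} (hx : 0 < x) :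
    formulaM θ K x = Real.sqrt x *
      (2 * (Pool.Agent.Helper66.RMT.partW Pool.Agent.Helper95.KS.bM θ K (Real.log x)).re) := by
  have h1 : ∑ n ∈ range K, ∑ j, (x : ℂ) ^ ((1 / 2 : ℂ) + ordinate θ n j * Complex.I) /
      (((1 / 2 : ℂ) + ordinate θ n j * Complex.I) * derivZ (θ n) j) =
      (Real.sqrt x : ℂ) * Pool.Agent.Helper66.RMT.partW Pool.Agent.Helper95.KS.bM θ K (Real.log x) := by
    unfold Pool.Agent.Helper66.RMT.partW
    rw [mul_sum]
    apply sum_congr rfl
    intro n _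
    rw [mul_sum]
    apply sum_congr rfl
    intro j _
    rw [cpow_eq hx]
    change _ = (Real.sqrt x : ℂ) * (1 / ((1 / 2 : ℂ) + ordinate θ n j * Complex.I) *
      Complex.exp ((Real.log x * ordinate θ n j : ℝ) * Complex.I) / derivZ (θ n) j)
    rw [div_mul_eq_div_div_swap]
    ring
  unfold formulaM
  rw [h1, Complex.re_ofReal_mul]
  ring

theorem formulaL_eq (θ : (n : ℕ) → Fin (size n) → ℝ) (K : ℕ) {x : ℝ} (hx : 0 < x) :
    formulaL θ K x = Real.sqrt x * ((1 / riemannZeta (1 / 2)).re +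
      2 * (Pool.Agent.Helper66.RMT.partW Pool.Agent.Helper66.RMT.bZ θ K (Real.log x)).re) := by
  have h1 : ∑ n ∈ range K, ∑ j, (x : ℂ) ^ ((1 / 2 : ℂ) + ordinate θ n j * Complex.I) *
      riemannZeta (1 + 2 * ordinate θ n j * Complex.I) /
      (((1 / 2 : ℂ) + ordinate θ n j * Complex.I) * derivZ (θ n) j) =
      (Real.sqrt x : ℂ) * Pool.Agent.Helper66.RMT.partW Pool.Agent.Helper66.RMT.bZ θ K (Real.log x) := by
    unfold Pool.Agent.Helper66.RMT.partW
    rw [mul_sum]
    apply sum_congr rfl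
    intro n _
    rw [mul_sum]
    apply sum_congr rfl
    intro j _
    rw [cpow_eq hx]
    change _ = (Real.sqrt x : ℂ) * (riemannZeta (1 + 2 * ordinate θ n j * Complex.I) /
      ((1 / 2 : ℂ) + ordinate θ n j * Complex.I) *
      Complex.exp ((Real.log x * ordinate θ n j : ℝ) * Complex.I) / derivZ (θ n) j)
    rw [div_mul_eq_div_div_swap]
    ring
  unfold formulaL
  rw [h1, Complex.re_ofReal_mul, div_eq_mul_one_div, Complex.re_ofReal_mul]
  ring

/-- Let `κ = lim N^{-1/4} ∏_{j ≤ N} Γ(j) Γ(j+1) / Γ(j+1/2)²`, `B = 4 κ / (5π)` and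
`m(α, β) = lim (1/T) ∫_1^T |α + β ζ(1 + 2it)| dt`; `m(1, 0) = 1` and `m(0, 1) = ∏_p ∑_k (C(2k, k) / 4^k)² p^{-2k}`.
Let `θ n` be independent random vectors, distributed like the eigenangles of a Haar unitary matrix of size `⌊log n⌋`.
Almost surely the explicit formulas converge for every `x > 1`, to `M(x)` and `L(x)`,
`liminf (α M + β L) / F = -B m(α, β)`, `limsup (α M + β L) / F = B m(α, β)` for all real `α`, `β`, and the set of limit
points of `(M(x), L(x)) / F(x)` as `x → ∞` is the convex body `{p | α p.1 + β p.2 ≤ B m(α, β) for all real α, β}`. -/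
theorem result : ∃ (κ : ℝ) (m : ℝ → ℝ → ℝ), 0 < κ ∧
    Tendsto (fun N : ℕ => (∏ j ∈ Icc 1 N, Real.Gamma j * Real.Gamma (j + 1) / Real.Gamma (j + 1 / 2) ^ 2) /
      (N : ℝ) ^ (1 / 4 : ℝ)) atTop (𝓝 κ) ∧
    (∀ α β : ℝ, Tendsto (fun T : ℝ => (∫ t in (1 : ℝ)..T,
      ‖(α : ℂ) + β * riemannZeta (1 + 2 * t * Complex.I)‖) / T) atTop (𝓝 (m α β))) ∧
    m 1 0 = 1 ∧ 1 ≤ m 0 1 ∧
    m 0 1 = ∏' p : Nat.Primes, ∑' k : ℕ, ((Nat.centralBinom k : ℝ) / 4 ^ k) ^ 2 / ((p : ℕ) : ℝ) ^ (2 * k) ∧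
    ∀ {Ω : Type*} [MeasurableSpace Ω] (P : Measure Ω) [IsProbabilityMeasure P]
      (θ : (n : ℕ) → Ω → (Fin (size n) → ℝ)), (∀ n, Measurable (θ n)) → iIndepFun θ P →
      (∀ n, P.map (θ n) = eigenangles (size n)) →
      ∀ᵐ ω ∂P, ∃ M L : ℝ → ℝ,
        (∀ x : ℝ, 1 < x → Tendsto (fun K : ℕ => formulaM (fun n => θ n ω) K x) atTop (𝓝 (M x)) ∧
          Tendsto (fun K : ℕ => formulaL (fun n => θ n ω) K x) atTop (𝓝 (L x))) ∧
        (∀ α β : ℝ,
          liminf (fun x : ℝ => (((α * M x + β * L x) / gonek x : ℝ) : EReal)) atTop =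
            ((-(4 * κ / (5 * Real.pi) * m α β) : ℝ) : EReal) ∧
          limsup (fun x : ℝ => (((α * M x + β * L x) / gonek x : ℝ) : EReal)) atTop =
            ((4 * κ / (5 * Real.pi) * m α β : ℝ) : EReal)) ∧
        {p : ℝ × ℝ | MapClusterPt p atTop fun x : ℝ => (M x / gonek x, L x / gonek x)} =
          {p : ℝ × ℝ | ∀ α β : ℝ, α * p.1 + β * p.2 ≤ 4 * κ / (5 * Real.pi) * m α β} := by
  obtain ⟨κ, hκ, hlim⟩ := Pool.Agent.Helper66.RMT.aa_lim
  obtain ⟨m, hm12, hm3⟩ := Pool.Agent.Helper11.RMT.mean_all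
  have hm1 := fun α β => (hm12 α β).1
  have hm2 := fun α β => (hm12 α β).2
  refine ⟨κ, m, hκ, hlim, hm1, ?_, ?_, hm3, ?_⟩
  · have h1 : Tendsto (fun T : ℝ => (T - 1) / T) atTop (𝓝 1) := by
      have h2 : Tendsto (fun T : ℝ => 1 - 1 / T) atTop (𝓝 (1 - 0)) :=
        tendsto_const_nhds.sub (tendsto_const_nhds.div_atTop tendsto_id)
      rw [sub_zero] at h2
      refine h2.congr' ?_
      filter_upwards [eventually_gt_atTop 0] with T hT
      field_simp
    refine tendsto_nhds_unique ((hm1 1 0).congr fun T => ?_) h1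
    simp
  · rw [hm3]
    exact Pool.Agent.Helper11.RMT.one_le_mz
  intro Ω _ P _ θ hm hi hl
  have hM : ∀ α β : ℝ, Tendsto (fun T : ℝ => (∫ t in (1 : ℝ)..T,
      t * ‖Pool.Agent.Helper66.RMT.lin Pool.Agent.Helper95.KS.bM Pool.Agent.Helper66.RMT.bZ α β t‖) / T) atTop
        (𝓝 (m α β)) := by
    intro α β
    refine (hm2 α β).congr fun T => ?_
    congr 1
    apply intervalIntegral.integral_congr
    intro t _
    simp only [Pool.Agent.Helper66.RMT.lin, Pool.Agent.Helper95.KS.bM, Pool.Agent.Helper66.RMT.bZ]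
    congr 2
    ring
  have hw : ∀ t : ℝ, Pool.Agent.Helper66.RMT.bZ t =
      riemannZeta (1 + 2 * t * Complex.I) * Pool.Agent.Helper95.KS.bM t := fun t =>
    Pool.Agent.Helper66.RMT.bZ_eq t
  have hWZ := Pool.Agent.Helper66.RMT.isW_bZ_of Pool.Agent.Helper11.RMT.mean_bZ
  filter_upwards [Pool.Agent.Helper66.RMT.joint_ae2 P θ hm hi hl Pool.Agent.Helper95.KS.isW_bM hWZ hM hκ.le hlim
    (fun t => riemannZeta (1 + 2 * t * Complex.I)) hw
    (Pool.Agent.Helper66.RMT.sq2_ae P θ hm hi hl Pool.Agent.Helper95.KS.isW_bM hWZ)] with ω hω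
  obtain ⟨y₁, y₂, g1, g2, g3, g6⟩ := hω
  set a : ℝ := (1 / riemannZeta (1 / 2)).re with ha
  have key : ∀ α β : ℝ,
      liminf (fun x : ℝ => (((α * (Real.sqrt x * (2 * y₁ (Real.log x))) +
        β * (Real.sqrt x * (a + 2 * y₂ (Real.log x)))) / gonek x : ℝ) : EReal)) atTop =
        ((-(4 * κ / (5 * Real.pi) * m α β) : ℝ) : EReal) ∧
      limsup (fun x : ℝ => (((α * (Real.sqrt x * (2 * y₁ (Real.log x))) +
        β * (Real.sqrt x * (a + 2 * y₂ (Real.log x)))) / gonek x : ℝ) : EReal)) atTop =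
        ((4 * κ / (5 * Real.pi) * m α β : ℝ) : EReal) := by
    intro α β
    have h4 := g3 a α β
    have h5 : ∀ᶠ x : ℝ in atTop,
        (((α * (2 * y₁ (Real.log x)) + β * (a + 2 * y₂ (Real.log x))) /
          Real.log (Real.log (Real.log x)) ^ (5 / 4 : ℝ) : ℝ) : EReal) =
        (((α * (Real.sqrt x * (2 * y₁ (Real.log x))) +
          β * (Real.sqrt x * (a + 2 * y₂ (Real.log x)))) / gonek x : ℝ) : EReal) := by
      filter_upwards [eventually_gt_atTop 0] with x hx
      unfold gonek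
      have hs : 0 < Real.sqrt x := Real.sqrt_pos.mpr hx
      congr 1
      rw [← mul_div_mul_left _ _ hs.ne']
      congr 1
      ring
    constructor
    · rw [← h4.1]
      exact (liminf_congr h5).symm
    · rw [← h4.2]
      exact (limsup_congr h5).symm
  refine ⟨fun x => Real.sqrt x * (2 * y₁ (Real.log x)),
    fun x => Real.sqrt x * (a + 2 * y₂ (Real.log x)), fun x hx => ⟨?_, ?_⟩, key, ?_⟩
  · have h3 := g1 (Real.log x) (Real.log_pos hx)
    refine ((h3.const_mul 2).const_mul (Real.sqrt x)).congr fun K => ?_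
    rw [formulaM_eq _ K (by linarith)]
  · have h3 := g2 (Real.log x) (Real.log_pos hx)
    refine (((h3.const_mul 2).const_add _).const_mul (Real.sqrt x)).congr fun K => ?_
    rw [formulaL_eq _ K (by linarith)]
  · apply Pool.Agent.Helper66.RMT.limit_set
    · intro α β
      rw [← (key α β).2]
      congr 1
      funext x
      congr 1
      ring
    · intro Y₁ Y₂ hY η hη
      have h7 := g6 Y₁ Y₂ hY (η / 2) (by positivity)
      have h8 : Tendsto (fun u : ℝ => a / Real.log (Real.log u) ^ (5 / 4 : ℝ)) atTop (𝓝 0) :=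
        ((tendsto_rpow_atTop (by norm_num)).comp
          (Real.tendsto_log_atTop.comp Real.tendsto_log_atTop)).const_div_atTop a
      have h9 : ∀ᶠ u : ℝ in atTop, |a / Real.log (Real.log u) ^ (5 / 4 : ℝ)| < η / 2 := by
        have := h8.abs
        rw [abs_zero] at this
        exact this.eventually_lt_const (by positivity)
      refine Real.tendsto_exp_atTop.frequently ?_
      refine (h7.and_eventually h9).mono ?_
      rintro u ⟨⟨hu1, hu2⟩, hu3⟩
      have hsq : Real.sqrt (Real.exp u) ≠ 0 := (Real.sqrt_pos.mpr (Real.exp_pos u)).ne'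
      have e1 : Real.sqrt (Real.exp u) * (2 * y₁ (Real.log (Real.exp u))) / gonek (Real.exp u) =
          2 * y₁ u / Real.log (Real.log u) ^ (5 / 4 : ℝ) := by
        unfold gonek
        rw [Real.log_exp, mul_div_mul_left _ _ hsq]
      have e2 : Real.sqrt (Real.exp u) * (a + 2 * y₂ (Real.log (Real.exp u))) / gonek (Real.exp u) =
          2 * y₂ u / Real.log (Real.log u) ^ (5 / 4 : ℝ) + a / Real.log (Real.log u) ^ (5 / 4 : ℝ) := by
        unfold gonek
        rw [Real.log_exp, mul_div_mul_left _ _ hsq]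
        ring
      rw [e1, e2]
      constructor
      · linarith
      · have e3 : 2 * y₂ u / Real.log (Real.log u) ^ (5 / 4 : ℝ) + a / Real.log (Real.log u) ^ (5 / 4 : ℝ) - Y₂ =
            (2 * y₂ u / Real.log (Real.log u) ^ (5 / 4 : ℝ) - Y₂) + a / Real.log (Real.log u) ^ (5 / 4 : ℝ) := by
          ring
        rw [e3]
        refine (abs_add_le _ _).trans ?_
        linarith

end Pool.Agent.Results.MP_a499ba_nt.RandomMatrixModel
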