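import Pool.Agent.Helper66.RK.MainA

/-!
# The real rank and the group von Neumann algebra

`LH G` is the group von Neumann algebra `L(G)` of a discrete group `G`. A proper projective representation `ρ : PRep Γ N` is a map from
`Γ` to the complex `N × N` matrices with determinant of modulus one which is multiplicative up to scalars of modulus one, such that only
finitely many elements of `Γ` are mapped to every bounded set; `ρ.Cartan r` says that the matrices of `ρ` have Cartan decompositions
`k exp(a) k'` with `k`, `k'` unitary and `a` in a real vector space of diagonal matrices of dimension at most `r`. `RankLE Γ r` says that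
such a representation exists. If `Γ` is a discrete subgroup of a connected simple Lie group `G` with trivial centre, then the adjoint
representation of `G` has these properties, where `r` is the real rank of `G`. For the discrete subgroups of the classical groups this is
the last part of the theorem.

The rank theorem says: if the group `Λ` contains `r` nonamenable subgroups and one infinite subgroup which commute with each other, and if
`RankLE Γ r`, then `L(Λ)` does not embed into `L(Γ)` (in a trace preserving way). If all nontrivial conjugacy classes of `Λ` are infinite,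
then isomorphisms preserve the trace, and the algebras `L(Λ)` and `L(Γ)` are not isomorphic. In particular the algebra of a subgroup of
finite index of `PSp(2n, ℤ)` (a lattice in a simple group of real rank `n`) is not isomorphic to the algebra of any lattice in any simple
Lie group with trivial centre and real rank less than `n`.
-/

set_option autoImplicit false

open Pool.Agent.Helper84.GVN (LH)
open Pool.Agent.Helper66.RKS

namespace Pool.Agent.Results.MP_0f6f3f_an.RankTheorem

theorem result :
    -- the rank theorem
    (∀ (Γ Λ : Type) [Group Γ] [Group Λ] (r : ℕ), RankLE Γ r → HasCommuting Λ r →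
      (¬ ∃ θ : LH Λ →⋆ₐ[ℂ] LH Γ, ∀ x, (θ x).tr = x.tr) ∧ (IsICC Λ → ¬ IsoL Λ Γ)) ∧
    -- in particular: `D` of finite index in `PSp(2n, ℤ)`, and groups `Γ` of rank less than `n`
    (∀ n : ℕ, 2 ≤ n → ∀ (D : Subgroup (PSpZ n)) [D.FiniteIndex],
      RankLE D n ∧ ∀ (Γ : Type) [Group Γ] (r : ℕ), r < n → RankLE Γ r → ¬ IsoL D Γ) ∧
    -- `D` of finite index in `PSL(n, ℤ)`, and groups `Γ` of rank less than `[n / 2]`
    (∀ n : ℕ, 3 ≤ n → ∀ (D : Subgroup (PSLZ n)) [D.FiniteIndex],
      RankLE D (n - 1) ∧ ∀ (Γ : Type) [Group Γ] (r : ℕ), 2 * (r + 1) ≤ n → RankLE Γ r → ¬ IsoL D Γ) ∧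
    -- the hypothesis `RankLE Γ r` holds for discrete subgroups of the classical groups of real rank `r`
    (∀ (Γ : Type) [Group Γ] (N : ℕ) (ρ : PRep Γ N) (r : ℕ), ρ.Classical r → RankLE Γ r) :=
  ⟨fun _ _ _ _ _ h1 h2 => final_rank h1 h2, fun n hn D _ => final_sp n hn D, fun n hn D _ => final_sl n hn D,
    fun _ _ _ ρ r h => classical_rankLE ρ r h⟩

end Pool.Agent.Results.MP_0f6f3f_an.RankTheorem
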