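import Mathlib
import Pool.Agent.Helper66.ER.Count

/-!
# Most powers of `e` are badly approximable by rationals with large smooth parts

Let `S` be a finite set of integers `≥ 2`. For all but `O(N^(1-c))` of the `n ≤ N` the number
`ξ e^n` has no exponentially good approximation of the form `(m / q) u` with `m ≠ 0` an integer,
`1 ≤ q ≤ e^(δn)` and `u = ∏ p^(k p)`, `|k p| ≤ A n` for `p ∈ S`.
-/

namespace Pool.Agent.Helper66.Keep.RidoutType

open Pool.Agent.Helper66.ER Filter

/-- **Main result.** Let `S` be a finite set of integers `≥ 2`, `A` real and `ε > 0`. There are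
`c > 0`, `δ > 0` and `C` such that for all real `ξ ≠ 0` and all `N ≥ 1`, for all but at most
`C (N^(1-c) + |log |ξ||)` integers `1 ≤ n ≤ N` the inequality
`|ξ e^n - (m / q) u| > (1 / q) u e^(-εn)` holds for all integers `m ≠ 0`, `1 ≤ q ≤ e^(δn)` and
all `u = ∏_{p ∈ S} p^(k p)` with integers `|k p| ≤ A n`. -/
theorem result (S : Finset ℕ) (hS : ∀ p ∈ S, 2 ≤ p) (A ε : ℝ) (hε : 0 < ε) :
    ∃ c δ C : ℝ, 0 < c ∧ 0 < δ ∧ ∀ ξ : ℝ, ξ ≠ 0 → ∀ N : ℕ, 1 ≤ N →
      ({n : ℕ | 1 ≤ n ∧ n ≤ N ∧ ∃ (k : ℕ → ℤ) (q m : ℤ), (∀ p ∈ S, |(k p : ℝ)| ≤ A * n) ∧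
        1 ≤ q ∧ (q : ℝ) ≤ Real.exp (δ * n) ∧ m ≠ 0 ∧
        |ξ * Real.exp n - (m / q : ℝ) * ∏ p ∈ S, (p : ℝ) ^ (k p)| ≤
          (1 / q : ℝ) * (∏ p ∈ S, (p : ℝ) ^ (k p)) * Real.exp (-(ε * n))}.ncard : ℝ) ≤
        C * ((N : ℝ) ^ (1 - c) + |Real.log (|ξ|)|) := by
  obtain ⟨c, δ, C, hc0, hc1, hδ, hC, hmain⟩ := part_one hS (max A 0) (ε / 2) (le_max_right _ _)
    (by positivity)
  set q : ℝ := (2 : ℝ) ^ (-(1 - c)) with hq
  have hq1 : q < 1 := by
    rw [hq]
    exact Real.rpow_lt_one_of_one_lt_of_neg (by norm_num) (by linarith)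
  have hq0 : 0 < q := by positivity
  set C' : ℝ := C / (1 - q) with hC'
  have hC'pos : 0 < C' := div_pos hC (by linarith)
  have hC'eq : C' * q + C = C' := by
    rw [hC']
    have : 1 - q ≠ 0 := by linarith
    field_simp
    ring
  refine ⟨c, δ, max C' 1, hc0, hδ, ?_⟩
  intro ξ hξ
  have hξ0 : 0 < |ξ| := abs_pos.mpr hξ
  set lam : ℝ := |Real.log (|ξ|)| with hlam
  have hlam0 : 0 ≤ lam := abs_nonneg _
  have hrange : ∀ M : ℕ, lam ≤ M → |ξ| ≤ Real.exp M := by
    intro M hM
    rw [← Real.log_le_iff_le_exp hξ0]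
    have := le_abs_self (Real.log (|ξ|))
    linarith
  have key : ∀ N : ℕ, ({n : ℕ | 1 ≤ n ∧ n ≤ N ∧
      Near S (A * n) (Real.exp (δ * n)) (Real.exp (-(ε * n))) (ξ * Real.exp n)}.ncard : ℝ) ≤
      C' * (N : ℝ) ^ (1 - c) + lam := by
    intro N
    induction N using Nat.strong_induction_on with
    | _ N ih =>
      by_cases hN : (N : ℝ) < lam
      · have h2 : ({n : ℕ | 1 ≤ n ∧ n ≤ N ∧ Near S (A * n) (Real.exp (δ * n))
            (Real.exp (-(ε * n))) (ξ * Real.exp n)}.ncard : ℝ) ≤ N := by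
          exact_mod_cast ncard_le N _
        have h3 : 0 ≤ C' * (N : ℝ) ^ (1 - c) := by positivity
        linarith
      push Not at hN
      rcases Nat.eq_zero_or_pos N with h0 | hpos
      · subst h0
        have h2 := ncard_le 0 (fun n => Near S (A * n) (Real.exp (δ * n))
            (Real.exp (-(ε * n))) (ξ * Real.exp n))
        have h3 : {n : ℕ | 1 ≤ n ∧ n ≤ 0 ∧ Near S (A * n) (Real.exp (δ * n))
            (Real.exp (-(ε * n))) (ξ * Real.exp n)}.ncard = 0 := by omega
        rw [h3]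
        simp only [Nat.cast_zero]
        positivity
      · have hsub : {n : ℕ | 1 ≤ n ∧ n ≤ N ∧ Near S (A * n) (Real.exp (δ * n))
            (Real.exp (-(ε * n))) (ξ * Real.exp n)} ⊆
            {n : ℕ | 1 ≤ n ∧ n ≤ N / 2 ∧ Near S (A * n) (Real.exp (δ * n))
            (Real.exp (-(ε * n))) (ξ * Real.exp n)} ∪
            {n : ℕ | 1 ≤ n ∧ n ≤ N ∧ Near S (max A 0 * N) (Real.exp (δ * N))
            (Real.exp (-(ε / 2 * N))) (ξ * Real.exp n)} := by
          rintro n ⟨h1, h2, h3⟩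
          by_cases h4 : n ≤ N / 2
          · exact Or.inl ⟨h1, h4, h3⟩
          · have h5 : N ≤ 2 * n := by omega
            have h6 : (N : ℝ) ≤ 2 * n := by exact_mod_cast h5
            have h7 : (n : ℝ) ≤ N := by exact_mod_cast h2
            refine Or.inr ⟨h1, h2, h3.mono ?_ ?_ ?_⟩
            · calc A * n ≤ max A 0 * n :=
                    mul_le_mul_of_nonneg_right (le_max_left _ _) (by positivity)
                _ ≤ max A 0 * N := mul_le_mul_of_nonneg_left h7 (le_max_right _ _)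
            · apply Real.exp_le_exp.mpr
              exact mul_le_mul_of_nonneg_left h7 hδ.le
            · apply Real.exp_le_exp.mpr
              nlinarith
        have h1 := Set.ncard_le_ncard hsub ((finite_set _ _).union (finite_set _ _))
        have h2 := h1.trans (Set.ncard_union_le _ _)
        have h3 := ih (N / 2) (Nat.div_lt_self hpos (by norm_num))
        have h4 := hmain N hpos ξ (hrange N hN)
        have h5 : (((N / 2 : ℕ) : ℝ)) ^ (1 - c) ≤ q * (N : ℝ) ^ (1 - c) := by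
          calc (((N / 2 : ℕ) : ℝ)) ^ (1 - c) ≤ ((N : ℝ) / 2) ^ (1 - c) := by
                apply Real.rpow_le_rpow (by positivity) _ (by linarith)
                have := @Nat.cast_div_le ℝ _ _ _ N 2
                simpa using this
            _ = q * (N : ℝ) ^ (1 - c) := by
                rw [hq, Real.div_rpow (by positivity) (by norm_num), Real.rpow_neg (by norm_num)]
                ring
        have h6 : (({n : ℕ | 1 ≤ n ∧ n ≤ N ∧ Near S (A * n) (Real.exp (δ * n))
            (Real.exp (-(ε * n))) (ξ * Real.exp n)}.ncard : ℕ) : ℝ) ≤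
            (({n : ℕ | 1 ≤ n ∧ n ≤ N / 2 ∧ Near S (A * n) (Real.exp (δ * n))
            (Real.exp (-(ε * n))) (ξ * Real.exp n)}.ncard : ℕ) : ℝ) +
            (({n : ℕ | 1 ≤ n ∧ n ≤ N ∧ Near S (max A 0 * N) (Real.exp (δ * N))
            (Real.exp (-(ε / 2 * N))) (ξ * Real.exp n)}.ncard : ℕ) : ℝ) := by
          exact_mod_cast h2
        calc _ ≤ _ := h6
          _ ≤ (C' * (((N / 2 : ℕ) : ℝ)) ^ (1 - c) + lam) + C * (N : ℝ) ^ (1 - c) :=
            add_le_add h3 h4
          _ ≤ (C' * (q * (N : ℝ) ^ (1 - c)) + lam) + C * (N : ℝ) ^ (1 - c) := by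
              have := mul_le_mul_of_nonneg_left h5 hC'pos.le
              linarith
          _ = (C' * q + C) * (N : ℝ) ^ (1 - c) + lam := by ring
          _ = C' * (N : ℝ) ^ (1 - c) + lam := by rw [hC'eq]
  intro N _
  refine (key N).trans ?_
  rw [mul_add]
  apply add_le_add
  · exact mul_le_mul_of_nonneg_right (le_max_left _ _) (by positivity)
  · exact le_mul_of_one_le_left hlam0 (le_max_right _ _)

end Pool.Agent.Helper66.Keep.RidoutType
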