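import Pool.Agent.Helper66.GV.Suslin

/-!
# Isomorphisms of group von Neumann algebras which respect the root subalgebras

Let `K` be a field of characteristic zero, `n ≥ 3` and `Γ ≤ PGL(n, K)` a subgroup which for all
`i ≠ j` and `b ∈ K` contains an element `1 + m b E_ij` with `m ≥ 1` (for example, any subgroup
commensurable with `PSL(n, ℤ)`, `K = ℚ`, or with `PSL(n, O_K)`, `K` a number field).  Let `Λ` be an
arbitrary group and let `θ` be a trace preserving `*`-isomorphism of the group von Neumann algebras
`L(Γ)` and `L(Λ)` which maps the von Neumann algebra of every root subgroup of `Γ` onto the von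
Neumann algebra of some subgroup of `Λ`.  Then `θ` is induced by an isomorphism of groups and a
character.
-/

open scoped MatrixGroups
open Pool.Agent.Helper66.GV

namespace Pool.Agent.Helper66.Keep.RootSubalgebras

theorem result (K : Type*) [Field K] [CharZero K] (n : Type*) [Fintype n] [DecidableEq n]
    (hn : 3 ≤ Fintype.card n) (Γ : Subgroup (PGL(n, K))) (hΓ : RootDense Γ)
    (Λ : Type*) [Group Λ] (θ : LG Γ ≃⋆ₐ[ℂ] LG Λ) (hθ : TracePreserving θ)
    (hroot : ∀ (i j : n) (hij : i ≠ j), ∃ Λ' : Subgroup Λ, MapsOnto θ (rootIn Γ hij) Λ') :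
    ∃ (δ : Γ ≃* Λ) (χ : Γ →* Circle), ∀ g : Γ, θ (u g) = (χ g : ℂ) • u (δ g) := by
  classical
  -- the root subgroups are nontrivial
  have hne : ∀ (i j : n) (hij : i ≠ j), rootIn Γ hij ≠ ⊥ := by
    intro i j hij hbot
    obtain ⟨m, hm, hmem⟩ := hΓ i j hij 1
    have h1 : (⟨el hij ((m : K) * 1), hmem⟩ : Γ) ∈ rootIn Γ hij := ⟨_, rfl⟩
    rw [hbot, Subgroup.mem_bot] at h1
    have h2 : el hij ((m : K) * 1) = el hij 0 := by
      rw [el_zero]
      exact congrArg Subtype.val h1
    have h3 := el_inj hij h2
    rw [mul_one, Nat.cast_eq_zero] at h3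
    omega
  -- all root elements are standard
  have hstd : ∀ e ∈ rootSet Γ, Std θ e := by
    rintro e ⟨i, j, hij, he⟩
    obtain ⟨k, hk⟩ : ∃ k, k ∉ ({i, j} : Finset n) := by
      by_contra h
      push Not at h
      have h1 : Fintype.card n ≤ ({i, j} : Finset n).card := by
        rw [← Finset.card_univ]
        exact Finset.card_le_card fun x _ => h x
      have h2 := Finset.card_le_two (a := i) (b := j)
      omega
    simp only [Finset.mem_insert, Finset.mem_singleton, not_or] at hk
    obtain ⟨hki, hkj⟩ := hk
    obtain ⟨A', hA⟩ := hroot i j hij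
    obtain ⟨B', hB⟩ := hroot j k (Ne.symm hkj)
    obtain ⟨N', hN⟩ := hroot i k (Ne.symm hki)
    exact std_left hθ ((triple_root hij (Ne.symm hkj) (Ne.symm hki)).subgroupOf Γ) hA hB hN
      (hne _ _ _) he
  refine exists_iso_of_std hθ (std_of_generated (E := rootSet Γ) ?_ ?_ ?_)
  · intro g hg
    induction hg using Subgroup.closure_induction with
    | mem x hx => exact hstd x hx
    | one => exact Std.one
    | mul x y _ _ hx hy => exact hx.mul hy
    | inv x _ hx => exact hx.inv
  · intro g e he
    exact almost_normal hΓ hn g e he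
  · intro g hg
    apply Subtype.ext
    apply eq_one_of_commute
    intro i j hij
    obtain ⟨m, hm, hmem⟩ := hΓ i j hij 1
    obtain ⟨k, hk, hcomm⟩ := hg ⟨el hij ((m : K) * 1), hmem⟩ ⟨i, j, hij, _, rfl⟩
    refine ⟨(k : K) * ((m : K) * 1), ?_, ?_⟩
    · rw [mul_one]
      exact mul_ne_zero (Nat.cast_ne_zero.mpr hk.ne') (Nat.cast_ne_zero.mpr hm.ne')
    · rw [← el_pow]
      exact congrArg Subtype.val hcomm

end Pool.Agent.Helper66.Keep.RootSubalgebras

/- Text of the former claim file of this theorem (kept out of `Results/`):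

Proves: Let K be a field of characteristic 0, n ≥ 3, and Γ ≤ PGL(n,K) a subgroup such that for all i ≠ j and b ∈ K some element 1 + mbE_ij with an integer m ≥ 1 lies in Γ. Let Λ be any group and θ : L(Γ) → L(Λ) a *-isomorphism with τ∘θ = τ such that for all i ≠ j there is a subgroup Λ_ij ≤ Λ with θ(L(Γ ∩ U_ij)) = L(Λ_ij). Then there are a group isomorphism δ : Γ → Λ and a homomorphism χ from Γ to the circle with θ(u_g) = χ(g)u_δ(g) for all g in Γ.
Definitions: HS G = ℓ²(G), BH G = its bounded operators, lam = left regular representation; vN H = L(H): double commutant of {lam h : h ∈ H}; GvN G = L(G); u g = lam g; tr = ⟨δ_1, · δ_1⟩; TracePreserving: τ∘θ = τ; MapsOnto θ A A': x ∈ L(A) iff θ(x) ∈ L(A'); rootIn = Γ ∩ U_ij, U_ij = {1 + bE_ij}; RootDense: the condition on Γ.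
Relation: Partial answer to Q1: it holds for isomorphisms respecting the algebras of the root subgroups, if Γ₁ is commensurable with PSL(n,ℤ) or PSL(n,O_F), F imaginary quadratic, n ≥ 3 (all these Γ satisfy the condition), even with an arbitrary group Λ. τ∘θ = τ is automatic for these factors. With strong rigidity G₁ ≅ G₂ follows. General isomorphisms remain open. I know of no earlier result of this kind; for rigidity from large coefficients see Ioana–Popa–Vaes (2013).
-/
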